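import Pool.Agent.Helper14.T3.StL

/-!
# T3 MODULE Chs: character sums of Dedekind sums
-/

set_option autoImplicit false

namespace Pool.Agent.Helper66.T3

open Pool.Agent.Helper14.T3 Pool.Agent.Helper14.W3 Pool.Agent.Helper78.W3

private theorem sum_Chs (D : ℕ) [NeZero D] (f : ZMod D → ℤ) :
    ∑ a ∈ Finset.range D, f (a : ZMod D) = ∑ x : ZMod D, f x := by
  refine Finset.sum_nbij' (fun a => (a : ZMod D)) (fun x => x.val) ?_ ?_ ?_ ?_ ?_
  · intro a _
    exact Finset.mem_univ _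
  · intro x _
    exact Finset.mem_range.2 (ZMod.val_lt x)
  · intro a ha
    exact ZMod.val_cast_of_lt (Finset.mem_range.1 ha)
  · intro x _
    exact ZMod.natCast_zmod_val x
  · intro a _
    rfl

/-- the character on `ZMod D` -/
private def ch (D : ℕ) (x : ZMod D) : ℤ := jacobiSym ((x.val : ℕ) : ℤ) D

private theorem ch_int (D : ℕ) [NeZero D] (a : ℤ) : jacobiSym a D = ch D (a : ZMod D) := by
  unfold ch
  rw [ZMod.val_intCast, ← jacobiSym.mod_left]

private theorem ch_nat (D : ℕ) [NeZero D] (a : ℕ) : jacobiSym (a : ℤ) D = ch D (a : ZMod D) := by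
  have := ch_int D (a : ℤ)
  rwa [Int.cast_natCast] at this

private theorem ch_mul (D : ℕ) [NeZero D] (x y : ZMod D) : ch D (x * y) = ch D x * ch D y := by
  have h1 : ch D (x * y) = jacobiSym ((x.val : ℤ) * (y.val : ℤ)) D := by
    rw [ch_int]
    congr 1
    push_cast
    rw [ZMod.natCast_zmod_val, ZMod.natCast_zmod_val]
  rw [h1, jacobiSym.mul_left]
  rfl

private theorem ch_sq (D : ℕ) [NeZero D] (a : ℤ) (ha : IsCoprime a (D : ℤ)) :
    ch D (a : ZMod D) * ch D (a : ZMod D) = 1 := by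
  rw [← ch_int]
  have h1 : Int.gcd a (D : ℤ) = 1 := Int.isCoprime_iff_gcd_eq_one.1 ha
  rcases jacobiSym.eq_one_or_neg_one h1 with h | h <;> rw [h] <;> norm_num

private theorem bij_Chs (D : ℕ) [NeZero D] (b : ZMod D) (hb : IsUnit b) (f : ZMod D → ℤ) :
    ∑ x : ZMod D, f (b * x) = ∑ x : ZMod D, f x := by
  obtain ⟨u, rfl⟩ := hb
  exact Fintype.sum_equiv (Units.mulLeft u) _ _ (fun x => rfl)

/-- the inner sum -/
private theorem inner_Chs (D : ℕ) [NeZero D] (hsq : Squarefree D) (hD4 : D % 4 = 3) (m : ℤ)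
    (hm : IsCoprime m (D : ℤ)) (k : ℕ) :
    ∑ x : ZMod D, ch D x * ((((m : ZMod D) * (k : ZMod D) * x).val : ℕ) : ℤ) =
      jacobiSym m D * jacobiSym (k : ℤ) D * Tn D := by
  have hT : Tn D = ∑ x : ZMod D, ch D x * ((x.val : ℕ) : ℤ) := by
    unfold Tn
    rw [← sum_Chs D (fun x => ch D x * ((x.val : ℕ) : ℤ))]
    refine Finset.sum_congr rfl fun a ha => ?_
    rw [ch_nat, ZMod.val_cast_of_lt (Finset.mem_range.1 ha)]
  by_cases hk : IsCoprime ((k : ℕ) : ℤ) (D : ℤ)
  · have hmk : IsCoprime (m * k) (D : ℤ) := hm.mul_left hk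
    have hu : IsUnit ((m : ZMod D) * (k : ZMod D)) := by
      have h1 : (((m * k : ℤ)) : ZMod D) = (m : ZMod D) * (k : ZMod D) := by push_cast; rfl
      rw [← h1]
      obtain ⟨a, b, hab⟩ := hmk
      refine IsUnit.of_mul_eq_one ((a : ℤ) : ZMod D) ?_
      have h2 : ((m * k * a : ℤ) : ZMod D) = ((1 - b * (D : ℤ) : ℤ) : ZMod D) := by
        rw [← hab]
        congr 1
        ring
      rw [← Int.cast_mul, h2]
      push_cast
      rw [ZMod.natCast_self]
      ring
    have hsq1 := ch_sq D (m * k) hmk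
    have h1 : ch D (((m * k : ℤ)) : ZMod D) *
        ∑ x : ZMod D, ch D x * ((((m : ZMod D) * (k : ZMod D) * x).val : ℕ) : ℤ) = Tn D := by
      have h5 := bij_Chs D _ hu (fun x => ch D x * ((x.val : ℕ) : ℤ))
      rw [hT, ← h5, Finset.mul_sum]
      refine Finset.sum_congr rfl fun x _ => ?_
      rw [ch_mul D ((m : ZMod D) * (k : ZMod D)) x]
      have h2 : (((m * k : ℤ)) : ZMod D) = (m : ZMod D) * (k : ZMod D) := by push_cast; rfl
      rw [h2]
      ring
    have h3 : jacobiSym m D * jacobiSym (k : ℤ) D = ch D (((m * k : ℤ)) : ZMod D) := by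
      rw [← jacobiSym.mul_left, ch_int]
    rw [h3, ← h1, ← mul_assoc, hsq1, one_mul]
  · -- a common prime factor
    have hg : Nat.gcd k D ≠ 1 := by
      intro h
      exact hk (Nat.isCoprime_iff_coprime.2 h)
    obtain ⟨l, hl, hlg⟩ := Nat.exists_prime_and_dvd hg
    have hlk : l ∣ k := hlg.trans (Nat.gcd_dvd_left k D)
    have hlD : l ∣ D := hlg.trans (Nat.gcd_dvd_right k D)
    have : Fact l.Prime := ⟨hl⟩
    obtain ⟨D', hD'⟩ := hlD
    have hcop : Nat.Coprime l D' := by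
      rw [hD'] at hsq
      exact Nat.coprime_of_squarefree_mul hsq
    have hl2 : l ≠ 2 := by
      rintro rfl
      omega
    have hc : ∃ c : ZMod l, ¬ IsSquare c := by
      apply FiniteField.exists_nonsquare
      rw [ZMod.ringChar_zmod_n]
      exact hl2
    obtain ⟨c, hc⟩ := hc
    obtain ⟨b, hb1, hb2⟩ := Nat.chineseRemainder hcop c.val 1
    have hbl : ((b : ℕ) : ZMod l) = c := by
      have h1 : ((b : ℕ) : ZMod l) = ((c.val : ℕ) : ZMod l) :=
        (ZMod.natCast_eq_natCast_iff _ _ _).2 hb1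
      rw [h1, ZMod.natCast_zmod_val]
    have hD'0 : D' ≠ 0 := by
      rintro rfl
      omega
    have hjl : jacobiSym (b : ℤ) l = -1 := by
      rw [← jacobiSym.legendreSym.to_jacobiSym, legendreSym.eq_neg_one_iff]
      rw [Int.cast_natCast, hbl]
      exact hc
    have hjD' : jacobiSym (b : ℤ) D' = 1 := by
      have h1 : ((b : ℕ) : ℤ) % (D' : ℤ) = (1 : ℤ) % (D' : ℤ) := by
        have h2 : b % D' = 1 % D' := hb2
        exact_mod_cast h2
      rw [jacobiSym.mod_left, h1, ← jacobiSym.mod_left, jacobiSym.one_left]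
    have hjb : jacobiSym (b : ℤ) D = -1 := by
      have h1 : jacobiSym (b : ℤ) (l * D') = jacobiSym (b : ℤ) l * jacobiSym (b : ℤ) D' := by
        have : NeZero l := ⟨hl.ne_zero⟩
        have : NeZero D' := ⟨hD'0⟩
        exact jacobiSym.mul_right _ _ _
      rw [hD', h1, hjl, hjD']
      norm_num
    have hbD : IsCoprime ((b : ℕ) : ℤ) (D : ℤ) := by
      rw [Int.isCoprime_iff_gcd_eq_one]
      by_contra h
      have h1 : jacobiSym (b : ℤ) D = 0 := (jacobiSym.eq_zero_iff_not_coprime).2 h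
      rw [h1] at hjb
      norm_num at hjb
    have hub : IsUnit ((b : ℕ) : ZMod D) := by
      rw [ZMod.isUnit_iff_coprime]
      exact Nat.isCoprime_iff_coprime.1 hbD
    have hbk : ((k : ℕ) : ZMod D) * ((b : ℕ) : ZMod D) = ((k : ℕ) : ZMod D) := by
      rw [← Nat.cast_mul]
      apply (ZMod.natCast_eq_natCast_iff _ _ _).2
      rw [hD']
      apply (Nat.modEq_and_modEq_iff_modEq_mul hcop).1
      constructor
      · have h1 : k ≡ 0 [MOD l] := (Nat.modEq_zero_iff_dvd).2 hlk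
        have h2 : k * b ≡ 0 [MOD l] := (Nat.modEq_zero_iff_dvd).2 (hlk.mul_right b)
        exact h2.trans h1.symm
      · have h1 : k * b ≡ k * 1 [MOD D'] := hb2.mul_left k
        rwa [mul_one] at h1
    have hS : ∑ x : ZMod D, ch D x * ((((m : ZMod D) * (k : ZMod D) * x).val : ℕ) : ℤ) =
        -∑ x : ZMod D, ch D x * ((((m : ZMod D) * (k : ZMod D) * x).val : ℕ) : ℤ) := by
      conv_lhs => rw [← bij_Chs D ((b : ℕ) : ZMod D) hub]
      rw [← Finset.sum_neg_distrib]
      refine Finset.sum_congr rfl fun x _ => ?_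
      have h1 : ch D ((b : ℕ) : ZMod D) = -1 := by
        rw [← ch_nat]
        exact hjb
      have h2 : (m : ZMod D) * (k : ZMod D) * (((b : ℕ) : ZMod D) * x) =
          (m : ZMod D) * (k : ZMod D) * x := by
        have h3 : (m : ZMod D) * (k : ZMod D) * (((b : ℕ) : ZMod D) * x) =
            (m : ZMod D) * ((k : ZMod D) * ((b : ℕ) : ZMod D)) * x := by ring
        rw [h3, hbk]
      rw [ch_mul, h1, h2]
      ring
    have hk0 : jacobiSym (k : ℤ) D = 0 := by
      rw [jacobiSym.eq_zero_iff_not_coprime]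
      intro h
      exact hk (Int.isCoprime_iff_gcd_eq_one.2 h)
    rw [hk0]
    linarith

theorem hChs : Chs := by
  intro D m hsq hD4 hm
  have hD0 : D ≠ 0 := by
    rintro rfl
    omega
  have : NeZero D := ⟨hD0⟩
  have hL : ∑ a ∈ Finset.range D, jacobiSym (a : ℤ) D * dS (m * (a : ℤ)) D =
      ∑ k ∈ Finset.range D, (k : ℤ) *
        ∑ x : ZMod D, ch D x * ((((m : ZMod D) * (k : ZMod D) * x).val : ℕ) : ℤ) := by
    have h1 : ∀ k ∈ Finset.range D, (k : ℤ) *
        ∑ x : ZMod D, ch D x * ((((m : ZMod D) * (k : ZMod D) * x).val : ℕ) : ℤ) =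
        ∑ a ∈ Finset.range D, jacobiSym (a : ℤ) D * ((k : ℤ) * ((m * (a : ℤ) * (k : ℤ)) % (D : ℤ))) := by
      intro k _
      rw [← sum_Chs D (fun x => ch D x * ((((m : ZMod D) * (k : ZMod D) * x).val : ℕ) : ℤ)),
        Finset.mul_sum]
      refine Finset.sum_congr rfl fun a _ => ?_
      have h2 : (m : ZMod D) * (k : ZMod D) * (a : ZMod D) =
          ((m * (a : ℤ) * (k : ℤ) : ℤ) : ZMod D) := by
        push_cast
        ring
      rw [h2, ZMod.val_intCast, ← ch_nat]
      ring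
    rw [Finset.sum_congr rfl h1, Finset.sum_comm]
    refine Finset.sum_congr rfl fun a _ => ?_
    unfold dS
    rw [Finset.mul_sum]
  rw [hL]
  have h3 : ∀ k ∈ Finset.range D, (k : ℤ) *
      ∑ x : ZMod D, ch D x * ((((m : ZMod D) * (k : ZMod D) * x).val : ℕ) : ℤ) =
      (jacobiSym m D * Tn D) * (jacobiSym (k : ℤ) D * (k : ℤ)) := by
    intro k _
    rw [inner_Chs D hsq hD4 m hm k]
    ring
  rw [Finset.sum_congr rfl h3, ← Finset.mul_sum]
  have h4 : ∑ k ∈ Finset.range D, jacobiSym (k : ℤ) D * (k : ℤ) = Tn D := rfl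
  rw [h4]
  ring

end Pool.Agent.Helper66.T3
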