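import Pool.Agent.Helper76.T3.StU

/-!
# T3 MODULE RmapS3: the hexagon relation maps `antiO3S k η ε` onto `antiF3S k η ε`
-/

set_option autoImplicit false

namespace Pool.Agent.Helper66.T3

open Pool.Agent.Helper76.T3 Pool.Agent.Helper14.T3 Pool.Agent.Helper14.W3 Pool.Agent.Helper78.W3
open Pool.Agent.Helper76.TX (Sg)
open Pool.Agent.Helper14.CV (Homog EqC act Tl)

variable {k : ℕ}

private theorem three_pow : (3 : ZMod (3 ^ k)) ^ k = 0 := by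
  have := ZMod.natCast_self (3 ^ k)
  push_cast at this
  exact this

private theorem unit1 (x : ZMod (3 ^ k)) : IsUnit (1 + 3 * x) := by
  apply IsNilpotent.isUnit_one_add
  refine ⟨k, ?_⟩
  rw [mul_pow, three_pow, zero_mul]

/-- `2 + 3 x` is a unit: `(2 + 3 x) * 2 = 1 + 3 (1 + 2 x)`. -/
private theorem unit2 (x : ZMod (3 ^ k)) : IsUnit (2 + 3 * x) := by
  have h := unit1 (1 + 2 * x)
  have e : 1 + 3 * (1 + 2 * x) = (2 + 3 * x) * 2 := by ring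
  rw [e] at h
  exact isUnit_of_mul_isUnit_left h

private theorem inv1 (x : ZMod (3 ^ k)) : (1 + 3 * x) * (1 + 3 * x)⁻¹ = 1 :=
  ZMod.mul_inv_of_unit _ (unit1 x)

private theorem inv2 (x : ZMod (3 ^ k)) : (2 + 3 * x) * (2 + 3 * x)⁻¹ = 1 :=
  ZMod.mul_inv_of_unit _ (unit2 x)

private theorem inv_eq {a b : ZMod (3 ^ k)} (h : a * b = 1) : a⁻¹ = b := by
  have ha : IsUnit a := IsUnit.of_mul_eq_one _ h
  have h2 : a * a⁻¹ = 1 := ZMod.mul_inv_of_unit _ ha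
  linear_combination (-a⁻¹) * h + b * h2

private theorem h3 (hk : 1 ≤ k) : 3 * (3 : ZMod (3 ^ k)) ^ (k - 1) = 0 := by
  rw [← pow_succ', Nat.sub_add_cancel hk, three_pow]

private theorem h_inv1 (hk : 1 ≤ k) (x : ZMod (3 ^ k)) :
    (3 : ZMod (3 ^ k)) ^ (k - 1) * (1 + 3 * x)⁻¹ = 3 ^ (k - 1) := by
  have h1 := inv1 x
  have h2 := h3 hk
  linear_combination (3 : ZMod (3 ^ k)) ^ (k - 1) * h1 - (x * (1 + 3 * x)⁻¹) * h2

private theorem h_inv2 (hk : 1 ≤ k) (x : ZMod (3 ^ k)) :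
    (3 : ZMod (3 ^ k)) ^ (k - 1) * (2 + 3 * x)⁻¹ = 2 * 3 ^ (k - 1) := by
  have h1 := inv2 x
  have h2 := h3 hk
  linear_combination (2 * (3 : ZMod (3 ^ k)) ^ (k - 1)) * h1 -
    ((2 * x + 1) * (2 + 3 * x)⁻¹) * h2

private theorem inv1_h (hk : 1 ≤ k) (x : ZMod (3 ^ k)) :
    (1 + 3 * (x + 3 ^ (k - 1)))⁻¹ = (1 + 3 * x)⁻¹ := by
  have h2 := h3 hk
  congr 1
  linear_combination h2

private theorem inv2_h (hk : 1 ≤ k) (x : ZMod (3 ^ k)) :
    (2 + 3 * (x + 3 ^ (k - 1)))⁻¹ = (2 + 3 * x)⁻¹ := by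
  have h2 := h3 hk
  congr 1
  linear_combination h2

/-- Maps commuting with the translation by `3^(k-1)`. -/
private def Eqv (α : ZMod (3 ^ k) → ZMod (3 ^ k)) : Prop :=
  ∀ x, α (x + 3 ^ (k - 1)) = α x + 3 ^ (k - 1)

private theorem Eqv.two {α : ZMod (3 ^ k) → ZMod (3 ^ k)} (h : Eqv α) (x : ZMod (3 ^ k)) :
    α (x + 2 * 3 ^ (k - 1)) = α x + 2 * 3 ^ (k - 1) := by
  have e : x + 2 * 3 ^ (k - 1) = (x + 3 ^ (k - 1)) + 3 ^ (k - 1) := by ring
  rw [e, h, h]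
  ring

private theorem eqv_id : Eqv (fun x : ZMod (3 ^ k) => x) := fun _ => rfl

private theorem eqv_succ : Eqv (fun x : ZMod (3 ^ k) => x + 1) := fun x => by
  change x + 3 ^ (k - 1) + 1 = x + 1 + 3 ^ (k - 1)
  ring

private theorem eqv_q (hk : 1 ≤ k) : Eqv (fun x : ZMod (3 ^ k) => x * (1 + 3 * x)⁻¹) := by
  intro x
  change (x + 3 ^ (k - 1)) * (1 + 3 * (x + 3 ^ (k - 1)))⁻¹ = x * (1 + 3 * x)⁻¹ + 3 ^ (k - 1)
  rw [inv1_h hk, add_mul, h_inv1 hk]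

private theorem eqv_r (hk : 1 ≤ k) : Eqv (rr : ZMod (3 ^ k) → ZMod (3 ^ k)) := by
  intro x
  unfold rr
  rw [inv1_h hk]
  have h1 := h_inv1 hk x
  have h2 := h3 hk
  linear_combination (-2) * h1 - h2

private theorem eqv_s (hk : 1 ≤ k) : Eqv (ss : ZMod (3 ^ k) → ZMod (3 ^ k)) := by
  intro x
  unfold ss
  rw [inv2_h hk]
  have h1 := h_inv2 hk x
  have h2 := h3 hk
  linear_combination (-1) * h1 - h2

private theorem eqv_v (hk : 1 ≤ k) : Eqv (v3 : ZMod (3 ^ k) → ZMod (3 ^ k)) := by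
  intro x
  unfold v3
  rw [inv2_h hk]
  have h1 := h_inv2 hk x
  have h2 := h3 hk
  linear_combination 2 * h1 + h2

private theorem inv1_r (x : ZMod (3 ^ k)) : (1 + 3 * rr x)⁻¹ = -(1 + 3 * x) * (2 + 3 * x)⁻¹ := by
  apply inv_eq
  unfold rr
  have h1 := inv1 x
  have h2 := inv2 x
  linear_combination (3 * (1 + 2 * x) * (2 + 3 * x)⁻¹) * h1 + h2

private theorem inv2_r (x : ZMod (3 ^ k)) : (2 + 3 * rr x)⁻¹ = -(1 + 3 * x) := by
  apply inv_eq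
  unfold rr
  have h1 := inv1 x
  linear_combination (3 * (1 + 2 * x)) * h1

private theorem inv1_s (x : ZMod (3 ^ k)) : (1 + 3 * ss x)⁻¹ = -(2 + 3 * x) := by
  apply inv_eq
  unfold ss
  have h1 := inv2 x
  linear_combination (3 * (1 + x)) * h1

private theorem inv2_s (x : ZMod (3 ^ k)) : (2 + 3 * ss x)⁻¹ = (2 + 3 * x) * (1 + 3 * x)⁻¹ := by
  apply inv_eq
  unfold ss
  have h1 := inv1 x
  have h2 := inv2 x
  linear_combination (-3 * (1 + x) * (1 + 3 * x)⁻¹) * h2 + h1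

private theorem rr_rr (x : ZMod (3 ^ k)) : rr (rr x) = ss x := by
  have e : rr (rr x) = -(1 + 2 * rr x) * (1 + 3 * rr x)⁻¹ := rfl
  rw [e, inv1_r]
  unfold rr ss
  have h1 := inv1 x
  linear_combination (-(2 * (1 + 2 * x)) * (2 + 3 * x)⁻¹) * h1

private theorem ss_ss (x : ZMod (3 ^ k)) : ss (ss x) = rr x := by
  have e : ss (ss x) = -(1 + ss x) * (2 + 3 * ss x)⁻¹ := rfl
  rw [e, inv2_s]
  unfold rr ss
  have h2 := inv2 x
  linear_combination ((1 + x) * (1 + 3 * x)⁻¹) * h2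

private theorem rr_ss (x : ZMod (3 ^ k)) : rr (ss x) = x := by
  have e : rr (ss x) = -(1 + 2 * ss x) * (1 + 3 * ss x)⁻¹ := rfl
  rw [e, inv1_s]
  unfold ss
  have h2 := inv2 x
  linear_combination (-2 * (1 + x)) * h2

private theorem ss_rr (x : ZMod (3 ^ k)) : ss (rr x) = x := by
  have e : ss (rr x) = -(1 + rr x) * (2 + 3 * rr x)⁻¹ := rfl
  rw [e, inv2_r]
  unfold rr
  have h1 := inv1 x
  linear_combination (-(1 + 2 * x)) * h1

/-- `r x + 1 = x / (1 + 3 x)`. -/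
private theorem rr_add (x : ZMod (3 ^ k)) : rr x + 1 = x * (1 + 3 * x)⁻¹ := by
  unfold rr
  linear_combination -inv1 x

/-- `s y / (1 + 3 s y) = y + 1`. -/
private theorem q_ss (y : ZMod (3 ^ k)) : ss y * (1 + 3 * ss y)⁻¹ = y + 1 := by
  rw [inv1_s]
  unfold ss
  linear_combination (1 + y) * inv2 y

/-- `s x + 1 = v x`. -/
private theorem ss_add (x : ZMod (3 ^ k)) : ss x + 1 = v3 x := by
  unfold ss v3
  linear_combination -inv2 x

/-- `r y / (1 + 3 r y) = v y`. -/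
private theorem q_rr (y : ZMod (3 ^ k)) : rr y * (1 + 3 * rr y)⁻¹ = v3 y := by
  rw [inv1_r]
  unfold rr v3
  linear_combination ((1 + 2 * y) * (2 + 3 * y)⁻¹) * inv1 y

/-- The operator `T`. -/
private noncomputable def TT (f : ZMod (3 ^ k) → ZMod (3 ^ k) → ℂ) :
    ZMod (3 ^ k) → ZMod (3 ^ k) → ℂ :=
  fun x y => f (x + 1) (y * (1 + 3 * y)⁻¹)

private theorem TT_iter (f : ZMod (3 ^ k) → ZMod (3 ^ k) → ℂ) (i : ℕ) (x y : ZMod (3 ^ k)) :
    (TT^[i] f) x y = f (x + i) (y * (1 + 3 * (i * y))⁻¹) := by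
  induction i generalizing f with
  | zero =>
    have h1 : ((1 : ZMod (3 ^ k)))⁻¹ = 1 := inv_eq (by ring)
    simp [h1]
  | succ i ih =>
    rw [Function.iterate_succ_apply, ih]
    unfold TT
    have hw := inv1 ((i : ZMod (3 ^ k)) * y)
    have hw' := inv1 ((i : ZMod (3 ^ k)) * y + y)
    have e1 : (1 + 3 * (y * (1 + 3 * ((i : ZMod (3 ^ k)) * y))⁻¹))⁻¹ =
        (1 + 3 * ((i : ZMod (3 ^ k)) * y)) * (1 + 3 * ((i : ZMod (3 ^ k)) * y + y))⁻¹ := by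
      apply inv_eq
      linear_combination hw' + (3 * y * (1 + 3 * ((i : ZMod (3 ^ k)) * y + y))⁻¹) * hw
    have e2 : y * (1 + 3 * ((i : ZMod (3 ^ k)) * y))⁻¹ *
        (1 + 3 * (y * (1 + 3 * ((i : ZMod (3 ^ k)) * y))⁻¹))⁻¹ =
        y * (1 + 3 * (((i + 1 : ℕ) : ZMod (3 ^ k)) * y))⁻¹ := by
      rw [e1]
      have e3 : (1 + 3 * (((i + 1 : ℕ) : ZMod (3 ^ k)) * y)) =
          1 + 3 * ((i : ZMod (3 ^ k)) * y + y) := by
        push_cast; ring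
      rw [e3]
      linear_combination (y * (1 + 3 * ((i : ZMod (3 ^ k)) * y + y))⁻¹) * hw
    have e4 : x + (i : ZMod (3 ^ k)) + 1 = x + ((i + 1 : ℕ) : ZMod (3 ^ k)) := by
      push_cast; ring
    rw [e2, e4]

/-- Vanishing sums over translates in both variables. -/
private def TZ (f : ZMod (3 ^ k) → ZMod (3 ^ k) → ℂ) : Prop :=
  ∀ x y, f x y + f (x + 3 ^ (k - 1)) y + f (x + 2 * 3 ^ (k - 1)) y = 0 ∧
    f x y + f x (y + 3 ^ (k - 1)) + f x (y + 2 * 3 ^ (k - 1)) = 0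

private theorem TZ.comp {f : ZMod (3 ^ k) → ZMod (3 ^ k) → ℂ} (h : TZ f)
    {α β : ZMod (3 ^ k) → ZMod (3 ^ k)} (hα : Eqv α) (hβ : Eqv β) :
    TZ (fun x y => f (α x) (β y)) := by
  intro x y
  constructor
  · change f (α x) (β y) + f (α (x + 3 ^ (k - 1))) (β y) + f (α (x + 2 * 3 ^ (k - 1))) (β y) = 0
    rw [hα, hα.two]
    exact (h _ _).1
  · change f (α x) (β y) + f (α x) (β (y + 3 ^ (k - 1))) + f (α x) (β (y + 2 * 3 ^ (k - 1))) = 0
    rw [hβ, hβ.two]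
    exact (h _ _).2

private theorem TZ.add {f g : ZMod (3 ^ k) → ZMod (3 ^ k) → ℂ} (hf : TZ f) (hg : TZ g) :
    TZ (f + g) := by
  intro x y
  simp only [Pi.add_apply]
  exact ⟨by linear_combination (hf x y).1 + (hg x y).1,
    by linear_combination (hf x y).2 + (hg x y).2⟩

private theorem TZ.smul {f : ZMod (3 ^ k) → ZMod (3 ^ k) → ℂ} (hf : TZ f) (c : ℂ) :
    TZ (c • f) := by
  intro x y
  simp only [Pi.smul_apply, smul_eq_mul]
  exact ⟨by linear_combination c * (hf x y).1, by linear_combination c * (hf x y).2⟩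

private theorem TZ.swap {f : ZMod (3 ^ k) → ZMod (3 ^ k) → ℂ} (hf : TZ f) :
    TZ (fun x y => f y x) := fun x y => ⟨(hf y x).2, (hf y x).1⟩

private theorem TZ.neg (hk : 1 ≤ k) {f : ZMod (3 ^ k) → ZMod (3 ^ k) → ℂ} (hf : TZ f) :
    TZ (fun x y => f (-x) (-y)) := by
  have h2 := h3 hk
  have e1 : ∀ x : ZMod (3 ^ k), -(x + 3 ^ (k - 1)) = -x + 2 * 3 ^ (k - 1) := fun x => by
    linear_combination -h2
  have e2 : ∀ x : ZMod (3 ^ k), -(x + 2 * 3 ^ (k - 1)) = -x + 3 ^ (k - 1) := fun x => by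
    linear_combination -h2
  intro x y
  constructor
  · change f (-x) (-y) + f (-(x + 3 ^ (k - 1))) (-y) + f (-(x + 2 * 3 ^ (k - 1))) (-y) = 0
    rw [e1, e2]
    linear_combination (hf (-x) (-y)).1
  · change f (-x) (-y) + f (-x) (-(y + 3 ^ (k - 1))) + f (-x) (-(y + 2 * 3 ^ (k - 1))) = 0
    rw [e1, e2]
    linear_combination (hf (-x) (-y)).2

private theorem TZ.TT (hk : 1 ≤ k) {f : ZMod (3 ^ k) → ZMod (3 ^ k) → ℂ} (h : TZ f) :
    TZ (Pool.Agent.Helper66.T3.TT f) := h.comp eqv_succ (eqv_q hk)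

private theorem TZ.iter (hk : 1 ≤ k) {f : ZMod (3 ^ k) → ZMod (3 ^ k) → ℂ} (h : TZ f) (i : ℕ) :
    TZ (Pool.Agent.Helper66.T3.TT^[i] f) := by
  induction i generalizing f with
  | zero => exact h
  | succ i ih => rw [Function.iterate_succ_apply]; exact ih (h.TT hk)

private theorem TT_iter_h (hk : 1 ≤ k) (f : ZMod (3 ^ k) → ZMod (3 ^ k) → ℂ)
    (x y : ZMod (3 ^ k)) : (TT^[3 ^ (k - 1)] f) x y = f (x + 3 ^ (k - 1)) y := by
  rw [TT_iter]
  have e1 : (((3 ^ (k - 1) : ℕ)) : ZMod (3 ^ k)) = 3 ^ (k - 1) := by push_cast; rfl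
  rw [e1]
  have e2 : (1 + 3 * ((3 : ZMod (3 ^ k)) ^ (k - 1) * y))⁻¹ = 1 := by
    apply inv_eq
    have h2 := h3 hk
    linear_combination y * h2
  rw [e2, mul_one]

private theorem Rh_apply (f : ZMod (3 ^ k) → ZMod (3 ^ k) → ℂ) (x y : ZMod (3 ^ k)) :
    Rh k f x y = f x y + f (rr x) (ss y) + f (ss x) (rr y) - f (x + 1) (y * (1 + 3 * y)⁻¹)
    - f (x * (1 + 3 * x)⁻¹) (y + 1) - f (v3 x) (v3 y) := rfl

private theorem Rh_eq (f : ZMod (3 ^ k) → ZMod (3 ^ k) → ℂ) (x y : ZMod (3 ^ k)) :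
    Rh k f x y = (f x y - TT f x y) + (f (rr x) (ss y) - TT f (rr x) (ss y)) +
      (f (ss x) (rr y) - TT f (ss x) (rr y)) := by
  rw [Rh_apply]
  unfold TT
  rw [rr_add, q_ss, ss_add, q_rr]
  ring

private theorem Rh_swap (f : ZMod (3 ^ k) → ZMod (3 ^ k) → ℂ) (x y : ZMod (3 ^ k)) :
    Rh k (fun a b => f b a) x y = Rh k f y x := by
  rw [Rh_apply, Rh_apply]
  ring

private theorem inv1_sig (y : ZMod (3 ^ k)) :
    (1 + 3 * (-y * (1 + 3 * y)⁻¹))⁻¹ = 1 + 3 * y := by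
  apply inv_eq
  linear_combination (-3 * y) * inv1 y

private theorem inv2_sig (y : ZMod (3 ^ k)) :
    (2 + 3 * (-y * (1 + 3 * y)⁻¹))⁻¹ = (1 + 3 * y) * (2 + 3 * y)⁻¹ := by
  apply inv_eq
  have h1 := inv1 y
  have h2 := inv2 y
  linear_combination (-3 * y * (2 + 3 * y)⁻¹) * h1 + h2

private theorem inv1_sig' (x : ZMod (3 ^ k)) :
    (1 + 3 * (-x - 1))⁻¹ = -(2 + 3 * x)⁻¹ := by
  apply inv_eq
  linear_combination inv2 x

private theorem inv2_sig' (x : ZMod (3 ^ k)) :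
    (2 + 3 * (-x - 1))⁻¹ = -(1 + 3 * x)⁻¹ := by
  apply inv_eq
  linear_combination inv1 x

private theorem Rh_neg (f : ZMod (3 ^ k) → ZMod (3 ^ k) → ℂ) (x y : ZMod (3 ^ k)) :
    Rh k (fun a b => f (-a) (-b)) x y = -Rh k f (-x - 1) (-y * (1 + 3 * y)⁻¹) := by
  rw [Rh_apply, Rh_apply]
  have h1 := inv1 x
  have h2 := inv1 y
  have g1 := inv2 x
  have g2 := inv2 y
  have a1 : -x - 1 + 1 = -x := by ring
  have a2 : -y * (1 + 3 * y)⁻¹ * (1 + 3 * (-y * (1 + 3 * y)⁻¹))⁻¹ = -y := by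
    rw [inv1_sig]; linear_combination (-y) * h2
  have b1 : rr (-x - 1) = -v3 x := by
    have : rr (-x - 1) = -(1 + 2 * (-x - 1)) * (1 + 3 * (-x - 1))⁻¹ := rfl
    rw [this, inv1_sig']; unfold v3; ring
  have b2 : ss (-y * (1 + 3 * y)⁻¹) = -v3 y := by
    have : ss (-y * (1 + 3 * y)⁻¹) = -(1 + (-y * (1 + 3 * y)⁻¹)) *
      (2 + 3 * (-y * (1 + 3 * y)⁻¹))⁻¹ := rfl
    rw [this, inv2_sig]; unfold v3
    linear_combination (y * (2 + 3 * y)⁻¹) * h2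
  have b3 : ss (-x - 1) = -(x * (1 + 3 * x)⁻¹) := by
    have : ss (-x - 1) = -(1 + (-x - 1)) * (2 + 3 * (-x - 1))⁻¹ := rfl
    rw [this, inv2_sig']; ring
  have b4 : rr (-y * (1 + 3 * y)⁻¹) = -(y + 1) := by
    have : rr (-y * (1 + 3 * y)⁻¹) = -(1 + 2 * (-y * (1 + 3 * y)⁻¹)) *
      (1 + 3 * (-y * (1 + 3 * y)⁻¹))⁻¹ := rfl
    rw [this, inv1_sig]; linear_combination (2 * y) * h2
  have b5 : (-x - 1) * (1 + 3 * (-x - 1))⁻¹ = -ss x := by
    rw [inv1_sig']; unfold ss; ring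
  have b6 : -y * (1 + 3 * y)⁻¹ + 1 = -rr y := by
    unfold rr; linear_combination -h2
  have b7 : v3 (-x - 1) = -rr x := by
    have : v3 (-x - 1) = (1 + 2 * (-x - 1)) * (2 + 3 * (-x - 1))⁻¹ := rfl
    rw [this, inv2_sig']; unfold rr; ring
  have b8 : v3 (-y * (1 + 3 * y)⁻¹) = -ss y := by
    have : v3 (-y * (1 + 3 * y)⁻¹) = (1 + 2 * (-y * (1 + 3 * y)⁻¹)) *
      (2 + 3 * (-y * (1 + 3 * y)⁻¹))⁻¹ := rfl
    rw [this, inv2_sig]; unfold ss
    linear_combination (-2 * y * (2 + 3 * y)⁻¹) * h2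
  have a7 : -(x + 1) = -x - 1 := by ring
  have a8 : -(y * (1 + 3 * y)⁻¹) = -y * (1 + 3 * y)⁻¹ := by ring
  rw [a1, a2, b1, b2, b3, b4, b5, b6, b7, b8, a7, a8]
  ring

private theorem Rh_rho (f : ZMod (3 ^ k) → ZMod (3 ^ k) → ℂ) (x y : ZMod (3 ^ k)) :
    Rh k f (rr x) (ss y) = Rh k f x y := by
  rw [Rh_eq, Rh_eq, rr_rr, ss_ss, ss_rr, rr_ss]
  ring

private theorem Rh_TZ (hk : 1 ≤ k) {f : ZMod (3 ^ k) → ZMod (3 ^ k) → ℂ} (h : TZ f) :
    TZ (Rh k f) := by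
  have e : Rh k f = f + (fun x y => f (rr x) (ss y)) + (fun x y => f (ss x) (rr y)) +
      (-1 : ℂ) • (fun x y => f (x + 1) (y * (1 + 3 * y)⁻¹)) +
      (-1 : ℂ) • (fun x y => f (x * (1 + 3 * x)⁻¹) (y + 1)) +
      (-1 : ℂ) • (fun x y => f (v3 x) (v3 y)) := by
    funext x y
    rw [Rh_apply]
    simp only [Pi.add_apply, Pi.smul_apply, smul_eq_mul]
    ring
  rw [e]
  exact ((((h.add (h.comp (eqv_r hk) (eqv_s hk))).add (h.comp (eqv_s hk) (eqv_r hk))).add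
    ((h.comp eqv_succ (eqv_q hk)).smul _)).add ((h.comp (eqv_q hk) eqv_succ).smul _)).add
    ((h.comp (eqv_v hk) (eqv_v hk)).smul _)

private theorem sg_sq {η : ℤ} (h : Sg η) : (η : ℂ) * (η : ℂ) = 1 := by
  rcases h with h | h <;> rw [h] <;> norm_num

private theorem Rh_maps (hk : 1 ≤ k) {η ε : ℤ} {f : ZMod (3 ^ k) → ZMod (3 ^ k) → ℂ}
    (h : f ∈ antiO3S k η ε) : Rh k f ∈ antiF3S k η ε := by
  have h' : ∀ x y, f x y + f (x + 3 ^ (k - 1)) y + f (x + 2 * 3 ^ (k - 1)) y = 0 ∧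
    f x y + f x (y + 3 ^ (k - 1)) + f x (y + 2 * 3 ^ (k - 1)) = 0 ∧
    f y x = (η : ℂ) * f x y ∧ f (-x) (-y) = (ε : ℂ) * f x y := h
  have htz : TZ f := fun x y => ⟨(h' x y).1, (h' x y).2.1⟩
  have hs : (fun a b => f b a) = (η : ℂ) • f := by
    funext a b
    exact (h' a b).2.2.1
  have hn : (fun a b => f (-a) (-b)) = (ε : ℂ) • f := by
    funext a b
    exact (h' a b).2.2.2
  change ∀ x y, _
  intro x y
  refine ⟨(Rh_TZ hk htz x y).1, (Rh_TZ hk htz x y).2, ?_, Rh_rho f x y, ?_⟩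
  · have := Rh_swap f x y
    rw [hs, map_smul] at this
    simp only [Pi.smul_apply, smul_eq_mul] at this
    exact this.symm
  · have := Rh_neg f x y
    rw [hn, map_smul] at this
    simp only [Pi.smul_apply, smul_eq_mul] at this
    rw [this]
    ring

private theorem Rh_onto (hk : 1 ≤ k) {η ε : ℤ} (hη : Sg η) (hε : Sg ε)
    {F : ZMod (3 ^ k) → ZMod (3 ^ k) → ℂ}
    (h : F ∈ antiF3S k η ε) : ∃ f ∈ antiO3S k η ε, Rh k f = F := by
  have e2 := sg_sq hη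
  have e3 := sg_sq hε
  have h' : ∀ x y, F x y + F (x + 3 ^ (k - 1)) y + F (x + 2 * 3 ^ (k - 1)) y = 0 ∧
    F x y + F x (y + 3 ^ (k - 1)) + F x (y + 2 * 3 ^ (k - 1)) = 0 ∧
    F y x = (η : ℂ) * F x y ∧ F (rr x) (ss y) = F x y ∧
    F (-x - 1) (-y * (1 + 3 * y)⁻¹) = -((ε : ℂ) * F x y) := h
  have htz : TZ F := fun x y => ⟨(h' x y).1, (h' x y).2.1⟩
  have hs : ∀ x y, F y x = (η : ℂ) * F x y := fun x y => (h' x y).2.2.1
  have hrho : ∀ x y, F (rr x) (ss y) = F x y := fun x y => (h' x y).2.2.2.1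
  have hsig : ∀ x y, F (-x - 1) (-y * (1 + 3 * y)⁻¹) = -((ε : ℂ) * F x y) := fun x y => (h' x y).2.2.2.2
  have hrho2 : ∀ x y, F (ss x) (rr y) = F x y := by
    intro x y
    rw [← rr_rr x, ← ss_ss y, hrho, hrho]
  have h33 := h3 hk
  -- the preimage
  set S : ZMod (3 ^ k) → ZMod (3 ^ k) → ℂ := ∑ i ∈ Finset.range (3 ^ (k - 1)), TT^[i] F with hS
  have hSa : ∀ x y, S x y = ∑ i ∈ Finset.range (3 ^ (k - 1)), (TT^[i] F) x y := by
    intro x y
    rw [hS]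
    simp only [Finset.sum_apply]
  have hStz : TZ S := by
    intro x y
    constructor
    · rw [hSa, hSa, hSa, ← Finset.sum_add_distrib, ← Finset.sum_add_distrib]
      exact Finset.sum_eq_zero fun i _ => (htz.iter hk i x y).1
    · rw [hSa, hSa, hSa, ← Finset.sum_add_distrib, ← Finset.sum_add_distrib]
      exact Finset.sum_eq_zero fun i _ => (htz.iter hk i x y).2
  have hST : ∀ x y, S x y - TT S x y = F x y - F (x + 3 ^ (k - 1)) y := by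
    intro x y
    have e1 : TT S x y = ∑ i ∈ Finset.range (3 ^ (k - 1)), (TT^[i + 1] F) x y := by
      have : TT S x y = S (x + 1) (y * (1 + 3 * y)⁻¹) := rfl
      rw [this, hSa]
      refine Finset.sum_congr rfl fun i _ => ?_
      rw [Function.iterate_succ_apply']
      rfl
    have e2 := Finset.sum_range_sub (fun i => (TT^[i] F) x y) (3 ^ (k - 1))
    rw [Finset.sum_sub_distrib, TT_iter_h hk] at e2
    simp only [Function.iterate_zero, id_eq] at e2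
    rw [e1, hSa]
    linear_combination -e2
  set f0 : ZMod (3 ^ k) → ZMod (3 ^ k) → ℂ :=
    fun x y => (1 / 9 : ℂ) * (S x y - S (x + 2 * 3 ^ (k - 1)) y) with hf0
  have eqv2 : Eqv (fun x : ZMod (3 ^ k) => x + 2 * 3 ^ (k - 1)) := fun x => by
    change x + 3 ^ (k - 1) + 2 * 3 ^ (k - 1) = x + 2 * 3 ^ (k - 1) + 3 ^ (k - 1)
    ring
  have hf0tz : TZ f0 := by
    have e : f0 = (1 / 9 : ℂ) • (S + (-1 : ℂ) • fun x y => S (x + 2 * 3 ^ (k - 1)) y) := by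
      funext x y
      simp only [hf0, Pi.smul_apply, Pi.add_apply, smul_eq_mul]
      ring
    rw [e]
    exact (hStz.add ((hStz.comp eqv2 eqv_id).smul _)).smul _
  have hT : ∀ x y, f0 x y - TT f0 x y = F x y / 3 := by
    intro x y
    have e0 : TT f0 x y = (1 / 9 : ℂ) * (TT S x y - TT S (x + 2 * 3 ^ (k - 1)) y) := by
      change (1 / 9 : ℂ) * (S (x + 1) (y * (1 + 3 * y)⁻¹) -
        S (x + 1 + 2 * 3 ^ (k - 1)) (y * (1 + 3 * y)⁻¹)) =
        (1 / 9 : ℂ) * (S (x + 1) (y * (1 + 3 * y)⁻¹) -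
        S (x + 2 * 3 ^ (k - 1) + 1) (y * (1 + 3 * y)⁻¹))
      have e : x + 2 * 3 ^ (k - 1) + 1 = x + 1 + 2 * 3 ^ (k - 1) := by ring
      rw [e]
    have e1 := hST x y
    have e2 := hST (x + 2 * 3 ^ (k - 1)) y
    have e3 : x + 2 * 3 ^ (k - 1) + 3 ^ (k - 1) = x := by linear_combination h33
    rw [e3] at e2
    have e4 := (htz x y).1
    rw [e0]
    simp only [hf0]
    linear_combination (1 / 9 : ℂ) * e1 - (1 / 9 : ℂ) * e2 - (1 / 9 : ℂ) * e4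
  have hR0 : Rh k f0 = F := by
    funext x y
    rw [Rh_eq, hT, hT, hT, hrho, hrho2]
    ring
  -- the average
  set f1 : ZMod (3 ^ k) → ZMod (3 ^ k) → ℂ := fun a b => f0 (-a) (-b) with hf1
  set f2 : ZMod (3 ^ k) → ZMod (3 ^ k) → ℂ := fun a b => f0 b a with hf2
  set f3 : ZMod (3 ^ k) → ZMod (3 ^ k) → ℂ := fun a b => f1 b a with hf3
  have hR1 : Rh k f1 = (ε : ℂ) • F := by
    funext x y
    rw [hf1, Rh_neg, hR0, hsig]
    simp only [Pi.smul_apply, smul_eq_mul]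
    ring
  have hR2 : Rh k f2 = (η : ℂ) • F := by
    funext x y
    rw [hf2, Rh_swap, hR0, hs]
    rfl
  have hR3 : Rh k f3 = ((ε : ℂ) * (η : ℂ)) • F := by
    funext x y
    rw [hf3, Rh_swap, hR1]
    simp only [Pi.smul_apply, smul_eq_mul]
    rw [hs]
    ring
  have tz1 : TZ f1 := hf0tz.neg hk
  have tz2 : TZ f2 := hf0tz.swap
  have tz3 : TZ f3 := tz1.swap
  have tzA : TZ ((1 / 4 : ℂ) • (f0 + (ε : ℂ) • f1 + (η : ℂ) • f2 + ((ε : ℂ) * (η : ℂ)) • f3)) :=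
    (((hf0tz.add (tz1.smul _)).add (tz2.smul _)).add (tz3.smul _)).smul _
  refine ⟨(1 / 4 : ℂ) • (f0 + (ε : ℂ) • f1 + (η : ℂ) • f2 + ((ε : ℂ) * (η : ℂ)) • f3), ?_, ?_⟩
  · change ∀ x y, _
    intro x y
    refine ⟨(tzA x y).1, (tzA x y).2, ?_, ?_⟩
    · simp only [Pi.smul_apply, Pi.add_apply, smul_eq_mul, hf3, hf2, hf1]
      linear_combination (-(1 / 4 : ℂ)) * (f0 y x + (ε : ℂ) * f0 (-y) (-x)) * e2
    · simp only [Pi.smul_apply, Pi.add_apply, smul_eq_mul, hf3, hf2, hf1]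
      rw [neg_neg, neg_neg]
      linear_combination (-(1 / 4 : ℂ)) * (f0 (-x) (-y) + (η : ℂ) * f0 (-y) (-x)) * e3
  · rw [map_smul, map_add, map_add, map_add, map_smul, map_smul, map_smul, hR0, hR1, hR2, hR3]
    funext x y
    simp only [Pi.smul_apply, Pi.add_apply, smul_eq_mul]
    linear_combination (1 / 4 : ℂ) * F x y * (e2 + e3 + (ε : ℂ) * (ε : ℂ) * e2 + e3)

theorem hRmapS3 : RmapS3 := by
  intro η ε k hη hε hk
  ext F
  rw [Submodule.mem_map]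
  constructor
  · rintro ⟨f, hf, rfl⟩
    exact Rh_maps hk hf
  · intro hF
    exact Rh_onto hk hη hε hF

end Pool.Agent.Helper66.T3
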