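import Pool.Agent.Helper28.T3.StA

/-!
# Project T3, module IDC: the number of ideals of norm `n`
-/

set_option autoImplicit false

open scoped NumberField

namespace Pool.Agent.Helper66.T3

open Pool.Agent.Helper28.T3

private theorem expand_IDC {D : ℕ} {K : Type} [Field K] [NumberField K] (h : QF D K) (x : 𝓞 K) :
    x = ((h.b.repr x 0 : ℤ) : 𝓞 K) + ((h.b.repr x 1 : ℤ) : 𝓞 K) * h.b 1 := by
  have h1 := h.b.sum_repr x
  rw [Fin.sum_univ_two, h.hb0, zsmul_eq_mul, zsmul_eq_mul, mul_one] at h1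
  exact h1.symm

private theorem coord_IDC {D : ℕ} {K : Type} [Field K] [NumberField K] (h : QF D K) (s t : ℤ) :
    h.b.repr ((s : 𝓞 K) + (t : 𝓞 K) * h.b 1) 0 = s ∧
      h.b.repr ((s : 𝓞 K) + (t : 𝓞 K) * h.b 1) 1 = t := by
  have h1 : (s : 𝓞 K) + (t : 𝓞 K) * h.b 1 = s • h.b 0 + t • h.b 1 := by
    rw [h.hb0, zsmul_eq_mul, zsmul_eq_mul, mul_one]
  rw [h1, map_add, map_zsmul, map_zsmul, Module.Basis.repr_self, Module.Basis.repr_self]
  constructor <;> simp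

/-- coordinates of a product with `ω` and with a general element -/
private theorem mul_IDC {D : ℕ} {K : Type} [Field K] [NumberField K] (h : QF D K) (r x : 𝓞 K) :
    h.b.repr (r * x) 0 = h.b.repr r 0 * h.b.repr x 0 - h.e * (h.b.repr r 1 * h.b.repr x 1) ∧
      h.b.repr (r * x) 1 = h.b.repr r 0 * h.b.repr x 1 + h.b.repr r 1 * h.b.repr x 0 +
        h.b.repr r 1 * h.b.repr x 1 := by
  set r0 := h.b.repr r 0
  set r1 := h.b.repr r 1
  set x0 := h.b.repr x 0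
  set x1 := h.b.repr x 1
  have h1 : r * x = ((r0 * x0 - h.e * (r1 * x1) : ℤ) : 𝓞 K) +
      ((r0 * x1 + r1 * x0 + r1 * x1 : ℤ) : 𝓞 K) * h.b 1 := by
    have hr := expand_IDC h r
    have hx := expand_IDC h x
    have hw := h.hb1
    calc r * x = ((r0 : 𝓞 K) + (r1 : 𝓞 K) * h.b 1) * ((x0 : 𝓞 K) + (x1 : 𝓞 K) * h.b 1) := by
          rw [← hr, ← hx]
      _ = (r0 : 𝓞 K) * x0 + ((r0 : 𝓞 K) * x1 + (r1 : 𝓞 K) * x0) * h.b 1 +
          (r1 : 𝓞 K) * x1 * (h.b 1 * h.b 1) := by ring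
      _ = _ := by
          rw [hw]
          push_cast
          ring
  rw [h1]
  exact coord_IDC h _ _

/-- the ideal `k (ℤ a + ℤ (β + ω))` -/
private def J_IDC {D : ℕ} {K : Type} [Field K] [NumberField K] (h : QF D K) (k a β : ℤ)
    (hd : a ∣ β ^ 2 + β + h.e) : Ideal (𝓞 K) where
  carrier := {x | ∃ u v : ℤ, h.b.repr x 0 = k * (u * a + v * β) ∧ h.b.repr x 1 = k * v}
  add_mem' := by
    rintro x y ⟨u, v, h1, h2⟩ ⟨u', v', h3, h4⟩
    refine ⟨u + u', v + v', ?_, ?_⟩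
    · rw [map_add, Finsupp.add_apply, h1, h3]
      ring
    · rw [map_add, Finsupp.add_apply, h2, h4]
      ring
  zero_mem' := ⟨0, 0, by simp, by simp⟩
  smul_mem' := by
    rintro r x ⟨u, v, h1, h2⟩
    obtain ⟨h3, h4⟩ := mul_IDC h r x
    obtain ⟨w, hw⟩ := hd
    rw [smul_eq_mul]
    refine ⟨h.b.repr r 0 * u - h.b.repr r 1 * (v * w + β * u),
      h.b.repr r 0 * v + h.b.repr r 1 * (u * a + v * β + v), ?_, ?_⟩
    · rw [h3, h1, h2]
      linear_combination (h.b.repr r 1 * k * v) * (- hw)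
    · rw [h4, h1, h2]
      ring

private theorem mem_IDC {D : ℕ} {K : Type} [Field K] [NumberField K] (h : QF D K) (k a β : ℤ)
    (hd : a ∣ β ^ 2 + β + h.e) (x : 𝓞 K) : x ∈ J_IDC h k a β hd ↔
      ∃ u v : ℤ, h.b.repr x 0 = k * (u * a + v * β) ∧ h.b.repr x 1 = k * v := Iff.rfl

/-- the linear map `s + t ω ↦ s k a + t k (β + ω)` -/
private noncomputable def f_IDC {D : ℕ} {K : Type} [Field K] [NumberField K] (h : QF D K)
    (k a β : ℤ) : 𝓞 K →ₗ[ℤ] 𝓞 K :=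
  h.b.constr ℤ ![((k * a : ℤ) : 𝓞 K) + ((0 : ℤ) : 𝓞 K) * h.b 1,
    ((k * β : ℤ) : 𝓞 K) + ((k : ℤ) : 𝓞 K) * h.b 1]

private theorem f_coord_IDC {D : ℕ} {K : Type} [Field K] [NumberField K] (h : QF D K)
    (k a β : ℤ) (x : 𝓞 K) :
    h.b.repr (f_IDC h k a β x) 0 = k * (h.b.repr x 0 * a + h.b.repr x 1 * β) ∧
      h.b.repr (f_IDC h k a β x) 1 = k * h.b.repr x 1 := by
  have h1 : f_IDC h k a β x = h.b.repr x 0 • (((k * a : ℤ) : 𝓞 K) + ((0 : ℤ) : 𝓞 K) * h.b 1) +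
      h.b.repr x 1 • (((k * β : ℤ) : 𝓞 K) + ((k : ℤ) : 𝓞 K) * h.b 1) := by
    rw [f_IDC, Module.Basis.constr_apply_fintype, Fin.sum_univ_two]
    simp
  rw [h1]
  obtain ⟨c1, c2⟩ := coord_IDC h (k * a) 0
  obtain ⟨c3, c4⟩ := coord_IDC h (k * β) k
  constructor
  · rw [map_add, Finsupp.add_apply, map_zsmul, map_zsmul, Finsupp.smul_apply, Finsupp.smul_apply,
      c1, c3, smul_eq_mul, smul_eq_mul]
    ring
  · rw [map_add, Finsupp.add_apply, map_zsmul, map_zsmul, Finsupp.smul_apply, Finsupp.smul_apply,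
      c2, c4, smul_eq_mul, smul_eq_mul]
    ring

private theorem ext_IDC {D : ℕ} {K : Type} [Field K] [NumberField K] (h : QF D K) (x y : 𝓞 K)
    (h0 : h.b.repr x 0 = h.b.repr y 0) (h1 : h.b.repr x 1 = h.b.repr y 1) : x = y := by
  rw [expand_IDC h x, expand_IDC h y, h0, h1]

private theorem det_IDC {D : ℕ} {K : Type} [Field K] [NumberField K] (h : QF D K)
    (k a β : ℤ) : LinearMap.det (f_IDC h k a β) = k ^ 2 * a := by
  rw [← LinearMap.det_toMatrix h.b, Matrix.det_fin_two]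
  simp only [LinearMap.toMatrix_apply]
  obtain ⟨c1, c2⟩ := f_coord_IDC h k a β (h.b 0)
  obtain ⟨c3, c4⟩ := f_coord_IDC h k a β (h.b 1)
  rw [c1, c2, c3, c4]
  simp
  ring

private theorem norm_IDC {D : ℕ} {K : Type} [Field K] [NumberField K] (h : QF D K) (k a β : ℤ)
    (hd : a ∣ β ^ 2 + β + h.e) (hk : 0 < k) (ha : 0 < a) :
    (Ideal.absNorm (J_IDC h k a β hd) : ℤ) = k ^ 2 * a := by
  have hmem : ∀ x : 𝓞 K, f_IDC h k a β x ∈ J_IDC h k a β hd := by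
    intro x
    rw [mem_IDC]
    exact ⟨_, _, (f_coord_IDC h k a β x).1, (f_coord_IDC h k a β x).2⟩
  let g : 𝓞 K →+ J_IDC h k a β hd :=
    { toFun := fun x => ⟨f_IDC h k a β x, hmem x⟩
      map_zero' := by simp
      map_add' := fun x y => by simp }
  have hbij : Function.Bijective g := by
    constructor
    · intro x y hxy
      have h1 : f_IDC h k a β x = f_IDC h k a β y := congrArg Subtype.val hxy
      obtain ⟨c1, c2⟩ := f_coord_IDC h k a β x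
      obtain ⟨c3, c4⟩ := f_coord_IDC h k a β y
      rw [h1] at c1 c2
      rw [c3] at c1
      rw [c4] at c2
      have h2 : h.b.repr x 1 = h.b.repr y 1 := by
        have := mul_left_cancel₀ hk.ne' c2
        exact this.symm
      have h3 : h.b.repr x 0 = h.b.repr y 0 := by
        have h4 := mul_left_cancel₀ hk.ne' c1
        rw [h2] at h4
        have h5 : h.b.repr y 0 * a = h.b.repr x 0 * a := by linarith
        exact (mul_right_cancel₀ ha.ne' h5).symm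
      exact ext_IDC h x y h3 h2
    · rintro ⟨y, hy⟩
      obtain ⟨u, v, h1, h2⟩ := (mem_IDC h k a β hd y).1 hy
      refine ⟨(u : 𝓞 K) + (v : 𝓞 K) * h.b 1, ?_⟩
      apply Subtype.ext
      show f_IDC h k a β _ = y
      obtain ⟨c1, c2⟩ := f_coord_IDC h k a β ((u : 𝓞 K) + (v : 𝓞 K) * h.b 1)
      obtain ⟨c3, c4⟩ := coord_IDC h u v
      apply ext_IDC h
      · rw [c1, c3, c4, h1]
      · rw [c2, c4, h2]
  have hN := Ideal.natAbs_det_equiv (J_IDC h k a β hd) (AddEquiv.ofBijective g hbij)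
  have hf : (Submodule.subtype (J_IDC h k a β hd)).restrictScalars ℤ ∘ₗ
      AddMonoidHom.toIntLinearMap ((AddEquiv.ofBijective g hbij : 𝓞 K ≃+ J_IDC h k a β hd) :
        𝓞 K →+ J_IDC h k a β hd) = f_IDC h k a β := by
    apply LinearMap.ext
    intro x
    rfl
  rw [← hN]
  have h5 : Int.natAbs (LinearMap.det ((Submodule.subtype (J_IDC h k a β hd)).restrictScalars ℤ ∘ₗ
      AddMonoidHom.toIntLinearMap ((AddEquiv.ofBijective g hbij : 𝓞 K ≃+ J_IDC h k a β hd) :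
        𝓞 K →+ J_IDC h k a β hd))) = Int.natAbs (k ^ 2 * a) := by
    rw [hf, det_IDC]
  rw [h5]
  have h6 : 0 < k ^ 2 * a := by positivity
  omega

/-- a subset of the integers closed under addition and multiplication is `kℤ` -/
private theorem gen_IDC (T : Ideal ℤ) (hne : ∃ t ∈ T, t ≠ 0) :
    ∃ k : ℕ, 0 < k ∧ ∀ t : ℤ, t ∈ T ↔ (k : ℤ) ∣ t := by
  obtain ⟨g, hg⟩ := (IsPrincipalIdealRing.principal T).principal
  have h1 : ∀ t : ℤ, t ∈ T ↔ g ∣ t := by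
    intro t
    rw [hg]
    exact Ideal.mem_span_singleton
  refine ⟨g.natAbs, ?_, fun t => by rw [h1, Int.natAbs_dvd]⟩
  rw [Int.natAbs_pos]
  rintro rfl
  obtain ⟨t, ht, ht0⟩ := hne
  exact ht0 (zero_dvd_iff.1 ((h1 t).1 ht))

/-- every nonzero ideal is one of the lattices -/
private theorem struct_IDC {D : ℕ} {K : Type} [Field K] [NumberField K] (h : QF D K)
    (I : Ideal (𝓞 K)) (n : ℕ) (hn : 1 ≤ n) (hI : Ideal.absNorm I = n) :
    ∃ k a β : ℕ, 0 < k ∧ 0 < a ∧ β < a ∧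
      ∃ hd : (a : ℤ) ∣ (β : ℤ) ^ 2 + β + h.e, I = J_IDC h k a β hd := by
  have hnI : ((n : ℤ) : 𝓞 K) ∈ I := by
    have h1 := Ideal.absNorm_mem I
    rw [hI] at h1
    simpa using h1
  -- the ideal of the `ω`-coordinates
  let T : Ideal ℤ :=
    { carrier := {t | ∃ s : ℤ, (s : 𝓞 K) + (t : 𝓞 K) * h.b 1 ∈ I}
      add_mem' := by
        rintro t t' ⟨s, hs⟩ ⟨s', hs'⟩
        refine ⟨s + s', ?_⟩
        have h1 := I.add_mem hs hs'
        have h2 : ((s : 𝓞 K) + (t : 𝓞 K) * h.b 1) + ((s' : 𝓞 K) + (t' : 𝓞 K) * h.b 1) =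
            ((s + s' : ℤ) : 𝓞 K) + ((t + t' : ℤ) : 𝓞 K) * h.b 1 := by
          push_cast
          ring
        rwa [h2] at h1
      zero_mem' := ⟨0, by simp⟩
      smul_mem' := by
        rintro c t ⟨s, hs⟩
        refine ⟨c * s, ?_⟩
        have h1 := I.mul_mem_left (c : 𝓞 K) hs
        have h2 : (c : 𝓞 K) * ((s : 𝓞 K) + (t : 𝓞 K) * h.b 1) =
            ((c * s : ℤ) : 𝓞 K) + ((c * t : ℤ) : 𝓞 K) * h.b 1 := by
          push_cast
          ring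
        rwa [h2] at h1 }
  have hTm : ∀ t : ℤ, t ∈ T ↔ ∃ s : ℤ, (s : 𝓞 K) + (t : 𝓞 K) * h.b 1 ∈ I := fun t => Iff.rfl
  let G : Ideal ℤ := Ideal.comap (algebraMap ℤ (𝓞 K)) I
  have hGm : ∀ s : ℤ, s ∈ G ↔ (s : 𝓞 K) ∈ I := by
    intro s
    rw [Ideal.mem_comap]
    simp
  have hn0 : (n : ℤ) ≠ 0 := by omega
  obtain ⟨k, hk, hkT⟩ := gen_IDC T ⟨n, (hTm _).2 ⟨0, by
    have h1 := I.mul_mem_right (h.b 1) hnI
    simpa using h1⟩, hn0⟩
  obtain ⟨g, hg, hgG⟩ := gen_IDC G ⟨n, (hGm _).2 hnI, hn0⟩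
  obtain ⟨s0, hs0⟩ := (hTm k).1 ((hkT k).2 (dvd_refl _))
  have hω : ∀ s t : ℤ, (s : 𝓞 K) + (t : 𝓞 K) * h.b 1 ∈ I →
      ((-(h.e * t) : ℤ) : 𝓞 K) + ((s + t : ℤ) : 𝓞 K) * h.b 1 ∈ I := by
    intro s t hst
    have h1 := I.mul_mem_left (h.b 1) hst
    have h2 : h.b 1 * ((s : 𝓞 K) + (t : 𝓞 K) * h.b 1) =
        ((-(h.e * t) : ℤ) : 𝓞 K) + ((s + t : ℤ) : 𝓞 K) * h.b 1 := by
      have h3 : h.b 1 * ((s : 𝓞 K) + (t : 𝓞 K) * h.b 1) =
          (s : 𝓞 K) * h.b 1 + (t : 𝓞 K) * (h.b 1 * h.b 1) := by ring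
      rw [h3, h.hb1]
      push_cast
      ring
    rwa [h2] at h1
  -- `k ∣ g`
  have hkg : (k : ℤ) ∣ (g : ℤ) := by
    have h1 : ((g : ℤ) : 𝓞 K) ∈ I := (hGm _).1 ((hgG _).2 (dvd_refl _))
    have h2 := hω g 0 (by simpa using h1)
    rw [add_zero] at h2
    exact (hkT _).1 ((hTm _).2 ⟨_, h2⟩)
  obtain ⟨a, ha⟩ := Int.natCast_dvd_natCast.1 hkg
  have ha0 : 0 < a := by
    rcases Nat.eq_zero_or_pos a with h1 | h1
    · rw [h1, mul_zero] at ha
      omega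
    · exact h1
  -- `k ∣ s0`
  have h3 := hω s0 k hs0
  have hks : (k : ℤ) ∣ s0 := by
    have h4 := (hkT _).1 ((hTm _).2 ⟨_, h3⟩)
    have h5 : s0 = (s0 + k) - k := by ring
    rw [h5]
    exact dvd_sub h4 (dvd_refl _)
  obtain ⟨β0, hβ0⟩ := hks
  -- the difference of two elements with the same second coordinate
  have hdiff : ∀ s v : ℤ, (s : 𝓞 K) + ((k * v : ℤ) : 𝓞 K) * h.b 1 ∈ I ↔
      ((g : ℤ) ∣ s - v * s0) := by
    intro s v
    rw [← hgG, hGm]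
    have h4 : (((s - v * s0 : ℤ)) : 𝓞 K) = ((s : 𝓞 K) + ((k * v : ℤ) : 𝓞 K) * h.b 1) -
        (v : 𝓞 K) * ((s0 : 𝓞 K) + ((k : ℤ) : 𝓞 K) * h.b 1) := by
      push_cast
      ring
    have h5 := I.mul_mem_left (v : 𝓞 K) hs0
    rw [h4]
    constructor
    · intro h6
      exact I.sub_mem h6 h5
    · intro h6
      have h7 := I.add_mem h6 h5
      simpa using h7
  have hga : (g : ℤ) = k * a := by
    rw [ha]
    push_cast
    ring
  have hk0 : (k : ℤ) ≠ 0 := by omega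
  have ha0' : (a : ℤ) ≠ 0 := by omega
  have hdiv0 : (a : ℤ) ∣ β0 ^ 2 + β0 + h.e := by
    have h4 : ((-(h.e * k) : ℤ) : 𝓞 K) + ((k * (β0 + 1) : ℤ) : 𝓞 K) * h.b 1 ∈ I := by
      have h5 : s0 + k = k * (β0 + 1) := by
        rw [hβ0]
        ring
      rw [← h5]
      exact h3
    have h5 := (hdiff _ _).1 h4
    have h6 : -(h.e * k) - (β0 + 1) * s0 = k * (-(β0 ^ 2 + β0 + h.e)) := by
      rw [hβ0]
      ring
    rw [h6, hga] at h5
    have h7 := (mul_dvd_mul_iff_left hk0).1 h5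
    exact (dvd_neg).1 h7
  set β : ℤ := β0 % a with hβ
  have hβnn : 0 ≤ β := Int.emod_nonneg _ ha0'
  have hβlt : β < a := Int.emod_lt_of_pos _ (by omega)
  obtain ⟨w, hw⟩ : ∃ w : ℤ, β0 = β + a * w := ⟨β0 / a, by rw [hβ]; exact (Int.emod_add_mul_ediv β0 a).symm⟩
  have hdiv : (a : ℤ) ∣ β ^ 2 + β + h.e := by
    have h4 : β ^ 2 + β + h.e = (β0 ^ 2 + β0 + h.e) - a * (w * (β0 + β + 1)) := by
      have h5 : a * w = β0 - β := by rw [hw]; ring
      have h6 : (a : ℤ) * (w * (β0 + β + 1)) = (a * w) * (β0 + β + 1) := by ring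
      rw [h6, h5]
      ring
    rw [h4]
    exact dvd_sub hdiv0 (dvd_mul_right _ _)
  have hβnat : ((β.toNat : ℕ) : ℤ) = β := Int.toNat_of_nonneg hβnn
  refine ⟨k, a, β.toNat, hk, ha0, by omega, by rw [hβnat]; exact hdiv, ?_⟩
  ext x
  rw [mem_IDC, hβnat]
  have hx := expand_IDC h x
  constructor
  · intro hxI
    have h4 : (k : ℤ) ∣ h.b.repr x 1 := by
      apply (hkT _).1
      rw [hTm]
      refine ⟨h.b.repr x 0, ?_⟩
      rw [← hx]
      exact hxI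
    obtain ⟨v, hv⟩ := h4
    have h5 : ((h.b.repr x 0 : ℤ) : 𝓞 K) + ((k * v : ℤ) : 𝓞 K) * h.b 1 ∈ I := by
      rw [← hv, ← hx]
      exact hxI
    obtain ⟨u, hu⟩ := (hdiff _ _).1 h5
    refine ⟨u + v * w, v, ?_, hv⟩
    have h6 : h.b.repr x 0 = v * s0 + g * u := by linarith
    rw [h6, hβ0, hga, hw]
    ring
  · rintro ⟨u, v, h4, h5⟩
    rw [hx, h5]
    apply (hdiff _ _).2
    rw [h4, hβ0, hga]
    have h6 : (k : ℤ) * (u * a + v * β) - v * (k * β0) = k * a * (u - v * w) := by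
      rw [hw]
      ring
    rw [h6]
    exact dvd_mul_right _ _

theorem hIDC : StIDC := by
  intro D K _ _ h n hn
  classical
  set A : Finset ℕ := (Finset.Icc 1 n).filter (fun k => k ^ 2 ∣ n) with hA
  set B : ℕ → Finset ℕ := fun k => (Finset.range (n / k ^ 2)).filter
    (fun x : ℕ => ((n / k ^ 2 : ℕ) : ℤ) ∣ (x : ℤ) ^ 2 + x + h.e) with hB
  have hcard : RR h.e n = (A.sigma B).card := by
    rw [Finset.card_sigma]
    rfl
  rw [hcard]
  have hmemA : ∀ k, k ∈ A → 0 < k ∧ k ^ 2 ∣ n := by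
    intro k hk
    rw [hA, Finset.mem_filter, Finset.mem_Icc] at hk
    exact ⟨by omega, hk.2⟩
  have hmemB : ∀ k β, β ∈ B k → β < n / k ^ 2 ∧
      ((n / k ^ 2 : ℕ) : ℤ) ∣ (β : ℤ) ^ 2 + β + h.e := by
    intro k β hβ
    rw [hB] at hβ
    simp only [Finset.mem_filter, Finset.mem_range] at hβ
    exact hβ
  have hJn : ∀ p : ↥(A.sigma B), Ideal.absNorm (J_IDC h (p.1.1 : ℤ) ((n / p.1.1 ^ 2 : ℕ) : ℤ)
      (p.1.2 : ℤ) (hmemB _ _ (Finset.mem_sigma.1 p.2).2).2) = n := by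
    intro p
    obtain ⟨hp1, hp2⟩ := Finset.mem_sigma.1 p.2
    obtain ⟨hk0, hkn⟩ := hmemA _ hp1
    have hb := hmemB _ _ hp2
    have h1 := norm_IDC h (p.1.1 : ℤ) ((n / p.1.1 ^ 2 : ℕ) : ℤ) (p.1.2 : ℤ) hb.2
      (by exact_mod_cast hk0) (by
        have : 0 < n / p.1.1 ^ 2 := by omega
        exact_mod_cast this)
    have h2 : (p.1.1 : ℕ) ^ 2 * (n / p.1.1 ^ 2) = n := Nat.mul_div_cancel' hkn
    have h3 : ((Ideal.absNorm (J_IDC h (p.1.1 : ℤ) ((n / p.1.1 ^ 2 : ℕ) : ℤ)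
      (p.1.2 : ℤ) hb.2) : ℕ) : ℤ) = ((p.1.1 ^ 2 * (n / p.1.1 ^ 2) : ℕ) : ℤ) := by
      rw [h1]
      push_cast
      ring
    rw [h2] at h3
    exact_mod_cast h3
  let F : ↥(A.sigma B) → {I : Ideal (𝓞 K) // Ideal.absNorm I = n} := fun p =>
    ⟨J_IDC h (p.1.1 : ℤ) ((n / p.1.1 ^ 2 : ℕ) : ℤ) (p.1.2 : ℤ)
      (hmemB _ _ (Finset.mem_sigma.1 p.2).2).2, hJn p⟩
  have hF : Function.Bijective F := by
    constructor
    · rintro ⟨⟨k, β⟩, hp⟩ ⟨⟨k', β'⟩, hp'⟩ hpp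
      have hI : J_IDC h (k : ℤ) ((n / k ^ 2 : ℕ) : ℤ) (β : ℤ)
          (hmemB _ _ (Finset.mem_sigma.1 hp).2).2 =
          J_IDC h (k' : ℤ) ((n / k' ^ 2 : ℕ) : ℤ) (β' : ℤ)
          (hmemB _ _ (Finset.mem_sigma.1 hp').2).2 := congrArg Subtype.val hpp
      have hmem : ∀ x : 𝓞 K, (∃ u v : ℤ, h.b.repr x 0 = k * (u * ((n / k ^ 2 : ℕ) : ℤ) + v * β) ∧
          h.b.repr x 1 = k * v) ↔ (∃ u v : ℤ, h.b.repr x 0 =
          k' * (u * ((n / k' ^ 2 : ℕ) : ℤ) + v * β') ∧ h.b.repr x 1 = k' * v) := by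
        intro x
        rw [← mem_IDC h (k : ℤ) ((n / k ^ 2 : ℕ) : ℤ) (β : ℤ)
          (hmemB _ _ (Finset.mem_sigma.1 hp).2).2 x, hI, mem_IDC]
      obtain ⟨hkA, hβB⟩ := Finset.mem_sigma.1 hp
      obtain ⟨hkA', hβB'⟩ := Finset.mem_sigma.1 hp'
      have hk0 := (hmemA _ hkA).1
      have hk0' := (hmemA _ hkA').1
      have hb := (hmemB _ _ hβB).1
      have hb' := (hmemB _ _ hβB').1
      simp only at hk0 hk0' hb hb'
      obtain ⟨c1, c2⟩ := coord_IDC h (k * β) k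
      obtain ⟨c3, c4⟩ := coord_IDC h (k' * β') k'
      obtain ⟨u1, v1, e1, e2⟩ := (hmem _).1 ⟨0, 1, by rw [c1]; ring, by rw [c2]; ring⟩
      obtain ⟨u2, v2, e3, e4⟩ := (hmem _).2 ⟨0, 1, by rw [c3]; ring, by rw [c4]; ring⟩
      rw [c1] at e1
      rw [c2] at e2
      rw [c3] at e3
      rw [c4] at e4
      have hkk : k = k' := by
        apply Nat.dvd_antisymm
        · exact Int.natCast_dvd_natCast.1 ⟨v2, e4⟩
        · exact Int.natCast_dvd_natCast.1 ⟨v1, e2⟩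
      subst hkk
      have hk0z : (k : ℤ) ≠ 0 := by omega
      have hv1 : v1 = 1 := by
        have h1 : (k : ℤ) * 1 = k * v1 := by rw [← e2]; ring
        exact (mul_left_cancel₀ hk0z h1).symm
      rw [hv1] at e1
      have h2 := mul_left_cancel₀ hk0z e1
      have h3 : ((n / k ^ 2 : ℕ) : ℤ) ∣ (β : ℤ) - β' := ⟨u1, by rw [h2]; ring⟩
      have hββ : β = β' := by
        have h4 : (β : ℤ) % ((n / k ^ 2 : ℕ) : ℤ) = (β' : ℤ) % ((n / k ^ 2 : ℕ) : ℤ) :=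
          (Int.emod_emod_of_dvd _ (dvd_refl _)).symm ▸ (Int.emod_emod_of_dvd _ (dvd_refl _)).symm ▸
            Int.emod_eq_emod_iff_emod_sub_eq_zero.2 (Int.emod_eq_zero_of_dvd h3)
        rw [Int.emod_eq_of_lt (by omega) (by exact_mod_cast hb),
          Int.emod_eq_of_lt (by omega) (by exact_mod_cast hb')] at h4
        exact_mod_cast h4
      subst hββ
      rfl
    · rintro ⟨I, hI⟩
      obtain ⟨k, a, β, hk, ha, hβa, hd, hIJ⟩ := struct_IDC h I n hn hI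
      have h1 := norm_IDC h (k : ℤ) (a : ℤ) (β : ℤ) hd (by exact_mod_cast hk)
        (by exact_mod_cast ha)
      rw [← hIJ, hI] at h1
      have h2 : n = k ^ 2 * a := by exact_mod_cast h1
      have h3 : n / k ^ 2 = a := by
        rw [h2]
        exact Nat.mul_div_cancel_left a (by positivity)
      have hkn : k ≤ n := by
        rw [h2]
        nlinarith
      have hmA : k ∈ A := by
        rw [hA, Finset.mem_filter, Finset.mem_Icc]
        exact ⟨⟨hk, hkn⟩, ⟨a, h2⟩⟩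
      have hmB : β ∈ B k := by
        rw [hB]
        simp only [Finset.mem_filter, Finset.mem_range]
        rw [h3]
        exact ⟨hβa, hd⟩
      refine ⟨⟨⟨k, β⟩, Finset.mem_sigma.2 ⟨hmA, hmB⟩⟩, ?_⟩
      apply Subtype.ext
      show J_IDC h (k : ℤ) ((n / k ^ 2 : ℕ) : ℤ) (β : ℤ) (hmemB _ _ hmB).2 = I
      rw [hIJ]
      ext x
      rw [mem_IDC, mem_IDC, h3]
  rw [← Nat.card_congr (Equiv.ofBijective F hF), Nat.card_eq_fintype_card, Fintype.card_coe]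

end Pool.Agent.Helper66.T3
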